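import Pool.Agent.Helper34.Reduct
import Pool.Agent.Helper34.S1Sanity

/-!
Negative answer to Q1 (hence to Q2) of MP_230ab6_an, for all three notions of embedding.

Idea of the proof. Let `f : S₁ → Y` be an embedding and let `Y` have type `p > 1`. For a real matrix
`C` of order `N = 2 ^ L` average `u ↦ f (v + k u C uᵀ l)` over the orthogonal group; integrating the
norm of the difference of two such averages over `v` in a large ball and over orthogonal `k, l`
gives a pseudo-distance between matrices that does not see orthogonal conjugation. The type
inequality, applied to `f (v + x₁), …, f (v + xₙ)`, shows that `C₊` and `C₋` are almost at distance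
zero if for each pattern of signs `ε` there are an orthogonal `w` and a matrix `y` such that
`w xᵢ + y` is conjugate to `C_{εᵢ}` for all `i` (all matrices being of controlled trace norm).
With `xᵢ` the flips of single bits, multiplied by diagonal matrices, and `y` a product of signs of
bits, one uses anticommutation to see that `B + C s` is close to `B + √2 C q s` with `s` the sign of
one bit and `q` the projection on the value `0` of a fresh bit. Iterating, one moves a
multiple of a rank one projection of large size (relative to `N`) to a matrix which is close to a
multiple of the identity in trace norm. Since `Y₀ + λ 2^k P` and `Y₀ - λ 2^k P` are also almost at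
distance zero, so are `c · 1` and `0`, which contradicts the lower bound for `f` (with an argument
of polynomial growth to pass from large balls to slightly larger ones).
-/

namespace Pool.Agent.Results.MP_230ab6_an.TraceClassNoEmbedding

open Helper34.TraceClass

/-- If `Y` is a (real or complex) Banach space of Rademacher type `p > 1`, then the (real or
complex) trace class `S₁` admits neither a uniform, nor a coarse, nor a quasisymmetric embedding
into `Y`. -/
theorem result (𝕜 : Type) [RCLike 𝕜] (𝕂 : Type) [RCLike 𝕂]
    (Y : Type*) [NormedAddCommGroup Y] [NormedSpace 𝕂 Y] [CompleteSpace Y]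
    (p : ℝ) (hp : 1 < p) (hY : HasType Y p) :
    (¬ ∃ f : S1 𝕜 → Y, IsUniformEmb S1.d f) ∧
    (¬ ∃ f : S1 𝕜 → Y, IsCoarseEmb S1.d f) ∧
    (¬ ∃ f : S1 𝕜 → Y, IsQSEmb S1.d f) := by
  let _ : NormedSpace ℝ Y := NormedSpace.restrictScalars ℝ 𝕂 Y
  exact ⟨fun ⟨f, hf⟩ => no_uniform hp hY f hf, fun ⟨f, hf⟩ => no_coarse hp hY f hf,
    fun ⟨f, hf⟩ => no_qs hp hY f hf⟩

end Pool.Agent.Results.MP_230ab6_an.TraceClassNoEmbedding
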